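import Mathlib

set_option autoImplicit false

open MeasureTheory Module

namespace Pool.Agent.Helper6

/-- Minkowski for linear forms. -/
theorem minkowski_matrix {n : ℕ} (M : Matrix (Fin n) (Fin n) ℝ) (hM : M.det ≠ 0) (C : ℝ)
    (hC0 : 0 ≤ C) (hC : |M.det| < C ^ n) :
    ∃ v : Fin n → ℤ, v ≠ 0 ∧ ∀ i, |(M.mulVec (fun j => (v j : ℝ))) i| ≤ C := by
  classical
  set b := Pi.basisFun ℝ (Fin n) with hb
  set L : AddSubgroup (Fin n → ℝ) := (Submodule.span ℤ (Set.range b)).toAddSubgroup with hL
  have fund : IsAddFundamentalDomain L (ZSpan.fundamentalDomain b) (volume : Measure (Fin n → ℝ)) :=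
    ZSpan.isAddFundamentalDomain b volume
  have hvolF : (volume : Measure (Fin n → ℝ)) (ZSpan.fundamentalDomain b) = 1 := by
    rw [ZSpan.volume_fundamentalDomain]
    have : (Matrix.of b : Matrix (Fin n) (Fin n) ℝ) = 1 := by
      ext i j
      simp [hb, Matrix.one_apply, Pi.single_apply, eq_comm]
    rw [this]
    simp
  set s : Set (Fin n → ℝ) := (Matrix.toLin' M) ⁻¹' (Set.Icc (fun _ => -C) (fun _ => C)) with hs
  have hdet : LinearMap.det (Matrix.toLin' M) ≠ 0 := by
    rwa [LinearMap.det_toLin']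
  have hvol : (volume : Measure (Fin n → ℝ)) s = ENNReal.ofReal |M.det|⁻¹ * ENNReal.ofReal ((2 * C) ^ n) := by
    rw [hs, Measure.addHaar_preimage_linearMap volume hdet, LinearMap.det_toLin', Real.volume_Icc_pi]
    simp only [sub_neg_eq_add, Finset.prod_const, Finset.card_univ, Fintype.card_fin]
    rw [abs_inv, ENNReal.ofReal_pow (by positivity), two_mul]
  have hsymm : ∀ x ∈ s, -x ∈ s := by
    intro x hx
    simp only [hs, Set.mem_preimage, Set.mem_Icc, Pi.le_def, map_neg, Pi.neg_apply] at hx ⊢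
    exact ⟨fun i => by linarith [hx.2 i], fun i => by linarith [hx.1 i]⟩
  have hconv : Convex ℝ s := (convex_Icc _ _).linear_preimage _
  have : DiscreteTopology (Submodule.span ℤ (Set.range b)) := inferInstance
  have : Countable L := by
    have : Countable (Submodule.span ℤ (Set.range b)) := inferInstance
    exact this
  have hlt : (volume : Measure (Fin n → ℝ)) (ZSpan.fundamentalDomain b) * 2 ^ finrank ℝ (Fin n → ℝ)
      < (volume : Measure (Fin n → ℝ)) s := by
    rw [hvolF, hvol, one_mul, finrank_fin_fun, ← ENNReal.ofReal_mul (by positivity)]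
    have h2 : (2 : ENNReal) ^ n = ENNReal.ofReal (2 ^ n) := by
      rw [ENNReal.ofReal_pow (by norm_num)]; norm_num
    rw [h2]
    apply (ENNReal.ofReal_lt_ofReal_iff_of_nonneg (by positivity)).2
    rw [mul_pow, inv_mul_eq_div, lt_div_iff₀ (abs_pos.2 hM)]
    exact mul_lt_mul_of_pos_left hC (by positivity)
  obtain ⟨x, hx0, hxs⟩ :=
    exists_ne_zero_mem_lattice_of_measure_mul_two_pow_lt_measure fund hsymm hconv hlt
  have hxmem : (x : Fin n → ℝ) ∈ Submodule.span ℤ (Set.range b) := x.2
  rw [Basis.mem_span_iff_repr_mem] at hxmem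
  choose v hv using hxmem
  have hxv : (x : Fin n → ℝ) = fun j => (v j : ℝ) := by
    ext j
    have := hv j
    simpa [hb] using this.symm
  refine ⟨v, ?_, ?_⟩
  · rintro rfl
    apply hx0
    ext j
    simp [hxv]
  · intro i
    rw [← hxv]
    have := hxs
    simp only [hs, Set.mem_preimage, Set.mem_Icc, Pi.le_def, Matrix.toLin'_apply] at this
    exact abs_le.2 ⟨this.1 i, this.2 i⟩

end Pool.Agent.Helper6
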