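import Pool.Agent.Helper56.EZ.QuatGroup
import Pool.Agent.Helper6.Minkowski

set_option autoImplicit false

open Matrix Pool.Agent.Helper56.EZ

namespace Pool.Agent.Helper6

/-- The norm form. -/
def nrm (x y z w : ℤ) : ℤ := x ^ 2 - 3 * y ^ 2 - 7 * z ^ 2 + 21 * w ^ 2

theorem mod7_aux (x y : ℤ) (h : (7 : ℤ) ∣ x ^ 2 - 3 * y ^ 2) : (7 : ℤ) ∣ x ∧ (7 : ℤ) ∣ y := by
  have key : ∀ a b : ZMod 7, a ^ 2 - 3 * b ^ 2 = 0 → a = 0 ∧ b = 0 := by decide
  have h1 : ((x ^ 2 - 3 * y ^ 2 : ℤ) : ZMod 7) = 0 := (ZMod.intCast_zmod_eq_zero_iff_dvd _ 7).2 h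
  push_cast at h1
  obtain ⟨hx, hy⟩ := key _ _ h1
  exact ⟨(ZMod.intCast_zmod_eq_zero_iff_dvd _ 7).1 hx, (ZMod.intCast_zmod_eq_zero_iff_dvd _ 7).1 hy⟩

theorem nrm_eq_zero_aux (n : ℕ) : ∀ x y z w : ℤ,
    x.natAbs + y.natAbs + z.natAbs + w.natAbs ≤ n → nrm x y z w = 0 →
    x = 0 ∧ y = 0 ∧ z = 0 ∧ w = 0 := by
  induction n with
  | zero =>
    intro x y z w hle _
    refine ⟨?_, ?_, ?_, ?_⟩ <;> omega
  | succ n ih =>
    intro x y z w hle h
    unfold nrm at h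
    have h1 : (7 : ℤ) ∣ x ^ 2 - 3 * y ^ 2 := ⟨z ^ 2 - 3 * w ^ 2, by linarith⟩
    obtain ⟨⟨x', hx⟩, ⟨y', hy⟩⟩ := mod7_aux x y h1
    have h2 : (7 : ℤ) ∣ z ^ 2 - 3 * w ^ 2 := by
      refine ⟨x' ^ 2 - 3 * y' ^ 2, ?_⟩
      subst hx hy
      nlinarith
    obtain ⟨⟨z', hz⟩, ⟨w', hw⟩⟩ := mod7_aux z w h2
    have h3 : nrm x' y' z' w' = 0 := by
      unfold nrm
      subst hx hy hz hw
      nlinarith
    by_cases hzero : x = 0 ∧ y = 0 ∧ z = 0 ∧ w = 0
    · exact hzero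
    · have := ih x' y' z' w' (by omega) h3
      obtain ⟨rfl, rfl, rfl, rfl⟩ := this
      simp at hx hy hz hw
      exact ⟨hx, hy, hz, hw⟩

theorem nrm_eq_zero {x y z w : ℤ} (h : nrm x y z w = 0) : x = 0 ∧ y = 0 ∧ z = 0 ∧ w = 0 :=
  nrm_eq_zero_aux _ x y z w le_rfl h

theorem quatMat_det' (x y z w : ℤ) : (quatMat x y z w).det = (nrm x y z w : ℝ) := by
  rw [quatMat_det]; rfl

/-- A short element: for `A` of determinant one there is a nonzero quaternion `α` with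
`α A` small. -/
theorem exists_short (A : Matrix (Fin 2) (Fin 2) ℝ) (hA : A.det = 1) :
    ∃ x y z w : ℤ, nrm x y z w ≠ 0 ∧ (∀ i j, |(quatMat x y z w * A) i j| ≤ 4) := by
  set a := A 0 0 with ha
  set b := A 0 1 with hb
  set c := A 1 0 with hc
  set d := A 1 1 with hd
  have h3 : √3 * √3 = (3 : ℝ) := Real.mul_self_sqrt (by norm_num)
  have hdet : a * d - b * c = 1 := by
    rw [← hA, Matrix.det_fin_two]
  let M : Matrix (Fin 4) (Fin 4) ℝ :=
    !![a, √3 * a, c, √3 * c; b, √3 * b, d, √3 * d; c, -√3 * c, 7 * a, -7 * √3 * a;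
      d, -√3 * d, 7 * b, -7 * √3 * b]
  have hM : M.det = 84 := by
    have : M.det = 84 * (a * d - b * c) ^ 2 := by
      simp only [M, Matrix.det_succ_row_zero, Fin.sum_univ_succ, Matrix.det_fin_zero]
      simp [Fin.succAbove, Matrix.submatrix]
      ring_nf
      have h3' : √3 ^ 2 = (3 : ℝ) := by rw [sq]; exact h3
      simp only [h3']
      ring
    rw [this, hdet]; norm_num
  obtain ⟨v, hv0, hv⟩ := minkowski_matrix M (by rw [hM]; norm_num) 4 (by norm_num)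
    (by rw [hM]; norm_num)
  refine ⟨v 0, v 1, v 2, v 3, ?_, ?_⟩
  · intro h
    obtain ⟨h0, h1, h2, h3⟩ := nrm_eq_zero h
    apply hv0
    ext i
    fin_cases i <;> simp_all
  · have e00 : (quatMat (v 0) (v 1) (v 2) (v 3) * A) 0 0 = (M.mulVec (fun j => (v j : ℝ))) 0 := by
      simp only [quatMat, Matrix.mul_apply, Fin.sum_univ_two, M, Matrix.mulVec, dotProduct,
        Fin.sum_univ_four, ← ha, ← hb, ← hc, ← hd, of_apply, cons_val', cons_val_zero,
        cons_val_one, cons_val_fin_one, cons_val]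
      ring
    have e01 : (quatMat (v 0) (v 1) (v 2) (v 3) * A) 0 1 = (M.mulVec (fun j => (v j : ℝ))) 1 := by
      simp only [quatMat, Matrix.mul_apply, Fin.sum_univ_two, M, Matrix.mulVec, dotProduct,
        Fin.sum_univ_four, ← ha, ← hb, ← hc, ← hd, of_apply, cons_val', cons_val_zero,
        cons_val_one, cons_val_fin_one, cons_val]
      ring
    have e10 : (quatMat (v 0) (v 1) (v 2) (v 3) * A) 1 0 = (M.mulVec (fun j => (v j : ℝ))) 2 := by
      simp only [quatMat, Matrix.mul_apply, Fin.sum_univ_two, M, Matrix.mulVec, dotProduct,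
        Fin.sum_univ_four, ← ha, ← hb, ← hc, ← hd, of_apply, cons_val', cons_val_zero,
        cons_val_one, cons_val_fin_one, cons_val]
      ring
    have e11 : (quatMat (v 0) (v 1) (v 2) (v 3) * A) 1 1 = (M.mulVec (fun j => (v j : ℝ))) 3 := by
      simp only [quatMat, Matrix.mul_apply, Fin.sum_univ_two, M, Matrix.mulVec, dotProduct,
        Fin.sum_univ_four, ← ha, ← hb, ← hc, ← hd, of_apply, cons_val', cons_val_zero,
        cons_val_one, cons_val_fin_one, cons_val]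
      ring
    intro i j
    fin_cases i <;> fin_cases j
    · exact e00 ▸ hv 0
    · exact e01 ▸ hv 1
    · exact e10 ▸ hv 2
    · exact e11 ▸ hv 3

/-- If two quaternions have the same norm `n ≠ 0` and are congruent mod `n`, they differ by
an element of `quatGroup`, up to sign. -/
theorem exists_group_elt {x y z w x' y' z' w' n : ℤ} (hn : n ≠ 0)
    (hα : nrm x y z w = n) (hβ : nrm x' y' z' w' = n)
    (h1 : x % n = x' % n) (h2 : y % n = y' % n) (h3 : z % n = z' % n) (h4 : w % n = w' % n) :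
    ∃ k ∈ quatGroup, ∃ ε : ℝ, |ε| = 1 ∧
      quatMat x y z w = ε • (quatMat x' y' z' w' * (k : Matrix (Fin 2) (Fin 2) ℝ)) := by
  obtain ⟨p, hp⟩ : n ∣ x - x' := Int.ModEq.dvd (show x' ≡ x [ZMOD n] from h1.symm)
  obtain ⟨q, hq⟩ : n ∣ y - y' := Int.ModEq.dvd (show y' ≡ y [ZMOD n] from h2.symm)
  obtain ⟨r, hr⟩ : n ∣ z - z' := Int.ModEq.dvd (show z' ≡ z [ZMOD n] from h3.symm)
  obtain ⟨s, hs⟩ : n ∣ w - w' := Int.ModEq.dvd (show w' ≡ w [ZMOD n] from h4.symm)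
  -- γ = 1 + conj β * δ
  set g0 := 1 + (x' * p + 3 * (-y') * q + 7 * (-z') * r - 21 * (-w') * s) with hg0
  set g1 := x' * q + (-y') * p - 7 * (-z') * s + 7 * (-w') * r with hg1
  set g2 := x' * r + 3 * (-y') * s + (-z') * p - 3 * (-w') * q with hg2
  set g3 := x' * s + (-y') * r - (-z') * q + (-w') * p with hg3
  have hx : x = x' + n * p := by linarith
  have hy : y = y' + n * q := by linarith
  have hz : z = z' + n * r := by linarith
  have hw : w = w' + n * s := by linarith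
  have hmul : quatMat x y z w = quatMat x' y' z' w' * quatMat g0 g1 g2 g3 := by
    rw [quatMat_mul]
    congr 1
    · rw [hx, hg0, hg1, hg2, hg3, ← hβ]; unfold nrm; ring
    · rw [hy, hg0, hg1, hg2, hg3, ← hβ]; unfold nrm; ring
    · rw [hz, hg0, hg1, hg2, hg3, ← hβ]; unfold nrm; ring
    · rw [hw, hg0, hg1, hg2, hg3, ← hβ]; unfold nrm; ring
  have hγ : nrm g0 g1 g2 g3 = 1 := by
    have h := congrArg Matrix.det hmul
    rw [Matrix.det_mul, quatMat_det', quatMat_det', quatMat_det', hα, hβ] at h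
    have hn' : (n : ℝ) ≠ 0 := by exact_mod_cast hn
    have h' : (n : ℝ) * 1 = n * (nrm g0 g1 g2 g3 : ℝ) := by rw [mul_one]; exact h
    have := mul_left_cancel₀ hn' h'
    exact_mod_cast this.symm
  have hmod : g0 % 3 = 1 ∨ g0 % 3 = 2 := by
    have key : ∀ a b : ZMod 3, a ^ 2 - b ^ 2 = 1 → a ≠ 0 := by decide
    have h5 : ((nrm g0 g1 g2 g3 : ℤ) : ZMod 3) = 1 := by rw [hγ]; simp
    have h6 : ((g0 : ZMod 3)) ^ 2 - ((g2 : ℤ) : ZMod 3) ^ 2 = 1 := by
      rw [← h5]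
      unfold nrm
      push_cast
      have e3 : (3 : ZMod 3) = 0 := by decide
      have e7 : (7 : ZMod 3) = 1 := by decide
      have e21 : (21 : ZMod 3) = 0 := by decide
      rw [e3, e7, e21]; ring
    have h7 := key _ _ h6
    have h8 : ¬ (3 : ℤ) ∣ g0 := fun hd => h7 ((ZMod.intCast_zmod_eq_zero_iff_dvd _ 3).2 hd)
    omega
  have hdet : (quatMat g0 g1 g2 g3).det = 1 := by rw [quatMat_det', hγ]; simp
  rcases hmod with hm | hm
  · refine ⟨⟨quatMat g0 g1 g2 g3, hdet⟩, ⟨g0, g1, g2, g3, hm, rfl⟩, 1, by simp, ?_⟩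
    rw [one_smul]; exact hmul
  · have hneg : quatMat (-g0) (-g1) (-g2) (-g3) = - quatMat g0 g1 g2 g3 := by
      ext i j
      fin_cases i <;> fin_cases j <;> simp [quatMat] <;> ring
    have hdet' : (quatMat (-g0) (-g1) (-g2) (-g3)).det = 1 := by
      have hn1 : nrm (-g0) (-g1) (-g2) (-g3) = 1 := by
        rw [← hγ]; unfold nrm; ring
      rw [quatMat_det', hn1]; simp
    refine ⟨⟨quatMat (-g0) (-g1) (-g2) (-g3), hdet'⟩, ⟨-g0, -g1, -g2, -g3, by omega, rfl⟩,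
      -1, by simp, ?_⟩
    show quatMat x y z w = (-1 : ℝ) • (quatMat x' y' z' w' * quatMat (-g0) (-g1) (-g2) (-g3))
    rw [hneg, hmul]
    simp

/-- The entries of `k A` are controlled by those of `β k A`, for `β` fixed. -/
theorem entries_bound (B : Matrix (Fin 2) (Fin 2) ℝ) (hB : 1 ≤ |B.det|)
    (X : Matrix (Fin 2) (Fin 2) ℝ) (C : ℝ) (h : ∀ i j, |(B * X) i j| ≤ C) (i j : Fin 2) :
    |X i j| ≤ (∑ i, ∑ j, |B i j|) * C := by
  have hC : 0 ≤ C := (abs_nonneg _).trans (h 0 0)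
  have h1 : B.adjugate * (B * X) = B.det • X := by
    rw [← Matrix.mul_assoc, Matrix.adjugate_mul, smul_mul, one_mul]
  have h2 : |B.det * X i j| ≤ (∑ i, ∑ j, |B i j|) * C := by
    have : B.det * X i j = (B.adjugate * (B * X)) i j := by rw [h1]; rfl
    rw [this, Matrix.mul_apply, Fin.sum_univ_two]
    have hb0 : |B.adjugate i 0| * |(B * X) 0 j| ≤ |B.adjugate i 0| * C :=
      mul_le_mul_of_nonneg_left (h 0 j) (abs_nonneg _)
    have hb1 : |B.adjugate i 1| * |(B * X) 1 j| ≤ |B.adjugate i 1| * C :=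
      mul_le_mul_of_nonneg_left (h 1 j) (abs_nonneg _)
    have hsum : |B.adjugate i 0| + |B.adjugate i 1| ≤ ∑ i, ∑ j, |B i j| := by
      rw [Matrix.adjugate_fin_two]
      simp only [Fin.sum_univ_two]
      have n00 := abs_nonneg (B 0 0)
      have n01 := abs_nonneg (B 0 1)
      have n10 := abs_nonneg (B 1 0)
      have n11 := abs_nonneg (B 1 1)
      fin_cases i <;> simp [abs_neg] <;> linarith
    calc |B.adjugate i 0 * (B * X) 0 j + B.adjugate i 1 * (B * X) 1 j|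
        ≤ |B.adjugate i 0 * (B * X) 0 j| + |B.adjugate i 1 * (B * X) 1 j| := abs_add_le _ _
      _ = |B.adjugate i 0| * |(B * X) 0 j| + |B.adjugate i 1| * |(B * X) 1 j| := by
          rw [abs_mul, abs_mul]
      _ ≤ (|B.adjugate i 0| + |B.adjugate i 1|) * C := by linarith
      _ ≤ _ := mul_le_mul_of_nonneg_right hsum hC
  rw [abs_mul] at h2
  calc |X i j| = 1 * |X i j| := (one_mul _).symm
    _ ≤ |B.det| * |X i j| := mul_le_mul_of_nonneg_right hB (abs_nonneg _)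
    _ ≤ _ := h2

theorem quatGroup_cocompact : ∃ M : ℝ, ∀ A : SpecialLinearGroup (Fin 2) ℝ, ∃ k ∈ quatGroup,
    ∀ i j, |((k * A : SpecialLinearGroup (Fin 2) ℝ) : Matrix (Fin 2) (Fin 2) ℝ) i j| ≤ M := by
  classical
  -- keys
  let key : ℤ × ℤ × ℤ × ℤ → ℤ × ℤ × ℤ × ℤ × ℤ := fun α =>
    (nrm α.1 α.2.1 α.2.2.1 α.2.2.2, α.1 % nrm α.1 α.2.1 α.2.2.1 α.2.2.2,
      α.2.1 % nrm α.1 α.2.1 α.2.2.1 α.2.2.2, α.2.2.1 % nrm α.1 α.2.1 α.2.2.1 α.2.2.2,
      α.2.2.2 % nrm α.1 α.2.1 α.2.2.1 α.2.2.2)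
  obtain ⟨K, hK⟩ : ∃ K : Finset (ℤ × ℤ × ℤ × ℤ × ℤ), K =
    Finset.Icc (-32) 32 ×ˢ Finset.Icc 0 32 ×ˢ Finset.Icc 0 32 ×ˢ Finset.Icc 0 32 ×ˢ
      Finset.Icc 0 32 := ⟨_, rfl⟩
  let P : ℤ × ℤ × ℤ × ℤ × ℤ → ℝ → Prop := fun κ B =>
    ∀ α : ℤ × ℤ × ℤ × ℤ, nrm α.1 α.2.1 α.2.2.1 α.2.2.2 ≠ 0 → key α = κ →
      ∀ A : SpecialLinearGroup (Fin 2) ℝ,
        (∀ i j, |(quatMat α.1 α.2.1 α.2.2.1 α.2.2.2 * (A : Matrix (Fin 2) (Fin 2) ℝ)) i j| ≤ 4) →
        ∃ k ∈ quatGroup, ∀ i j,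
          |((k * A : SpecialLinearGroup (Fin 2) ℝ) : Matrix (Fin 2) (Fin 2) ℝ) i j| ≤ B
  have hP : ∀ κ, ∃ B, P κ B := by
    intro κ
    by_cases hκ : ∃ β : ℤ × ℤ × ℤ × ℤ, nrm β.1 β.2.1 β.2.2.1 β.2.2.2 ≠ 0 ∧ key β = κ
    · obtain ⟨β, hβ0, hβ⟩ := hκ
      refine ⟨(∑ i, ∑ j, |quatMat β.1 β.2.1 β.2.2.1 β.2.2.2 i j|) * 4, ?_⟩
      intro α hα0 hα A hA
      have hkey : key α = key β := hα.trans hβ.symm
      simp only [key, Prod.mk.injEq] at hkey
      obtain ⟨e0, e1, e2, e3, e4⟩ := hkey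
      obtain ⟨k, hk, ε, hε, hmat⟩ := exists_group_elt hα0 rfl e0.symm
        (by rw [e1, e0]) (by rw [e2, e0]) (by rw [e3, e0]) (by rw [e4, e0])
      refine ⟨k, hk, ?_⟩
      intro i j
      apply entries_bound (quatMat β.1 β.2.1 β.2.2.1 β.2.2.2) _ _ 4
      · intro i j
        have h5 := hA i j
        rw [hmat, Matrix.smul_mul, Matrix.mul_assoc, Matrix.smul_apply, smul_eq_mul, abs_mul, hε,
          one_mul] at h5
        rw [Matrix.SpecialLinearGroup.coe_mul]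
        exact h5
      · rw [quatMat_det']
        have : (1 : ℤ) ≤ |nrm β.1 β.2.1 β.2.2.1 β.2.2.2| := Int.one_le_abs hβ0
        rw [← Int.cast_abs]
        exact_mod_cast this
    · push Not at hκ
      exact ⟨0, fun α hα0 hα => absurd hα (hκ α hα0)⟩
  choose B hB using hP
  refine ⟨∑ κ ∈ K, |B κ|, ?_⟩
  intro A
  obtain ⟨x, y, z, w, hN, hA⟩ := exists_short (A : Matrix (Fin 2) (Fin 2) ℝ) A.2
  have hNle : |nrm x y z w| ≤ 32 := by
    have h1 : (quatMat x y z w * (A : Matrix (Fin 2) (Fin 2) ℝ)).det = (nrm x y z w : ℝ) := by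
      rw [Matrix.det_mul, quatMat_det', A.2, mul_one]
    rw [Matrix.det_fin_two] at h1
    have a00 := hA 0 0
    have a01 := hA 0 1
    have a10 := hA 1 0
    have a11 := hA 1 1
    set X := quatMat x y z w * (A : Matrix (Fin 2) (Fin 2) ℝ)
    have h2 : |X 0 0 * X 1 1 - X 0 1 * X 1 0| ≤ 32 := by
      calc |X 0 0 * X 1 1 - X 0 1 * X 1 0| ≤ |X 0 0 * X 1 1| + |X 0 1 * X 1 0| := abs_sub _ _
        _ = |X 0 0| * |X 1 1| + |X 0 1| * |X 1 0| := by rw [abs_mul, abs_mul]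
        _ ≤ 4 * 4 + 4 * 4 := by
            gcongr
        _ = 32 := by norm_num
    rw [h1] at h2
    rw [← Int.cast_abs] at h2
    exact_mod_cast h2
  have hmem : key (x, y, z, w) ∈ K := by
    have hb : ∀ t : ℤ, 0 ≤ t % nrm x y z w ∧ t % nrm x y z w ≤ 32 := by
      intro t
      have h1 := Int.emod_nonneg t hN
      have h2 := Int.emod_lt_abs t hN
      omega
    have h32 := abs_le.1 hNle
    rw [hK]
    simp only [key, Finset.mem_product, Finset.mem_Icc]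
    exact ⟨h32, hb x, hb y, hb z, hb w⟩
  obtain ⟨k, hk, hkA⟩ := hB (key (x, y, z, w)) (x, y, z, w) hN rfl A hA
  refine ⟨k, hk, fun i j => (hkA i j).trans ?_⟩
  have hsum : ∀ (K : Finset (ℤ × ℤ × ℤ × ℤ × ℤ)) (κ : ℤ × ℤ × ℤ × ℤ × ℤ), κ ∈ K →
      B κ ≤ ∑ κ ∈ K, |B κ| := fun K κ h =>
    (le_abs_self _).trans
      (Finset.single_le_sum (f := fun κ => |B κ|) (fun κ _ => abs_nonneg _) h)
  exact hsum _ _ hmem

theorem quatGroup_discrete : ∀ R : ℝ,
    {k : quatGroup | ∀ i j,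
      |((k : SpecialLinearGroup (Fin 2) ℝ) : Matrix (Fin 2) (Fin 2) ℝ) i j| ≤ R}.Finite := by
  classical
  intro R
  obtain ⟨N, hN⟩ := exists_nat_ge R
  let F : Set (ℤ × ℤ × ℤ × ℤ) := (Set.Icc (-N : ℤ) N) ×ˢ (Set.Icc (-N : ℤ) N) ×ˢ
    (Set.Icc (-N : ℤ) N) ×ˢ (Set.Icc (-N : ℤ) N)
  have hF : F.Finite := (Set.finite_Icc _ _).prod ((Set.finite_Icc _ _).prod
    ((Set.finite_Icc _ _).prod (Set.finite_Icc _ _)))
  let f : ℤ × ℤ × ℤ × ℤ → Matrix (Fin 2) (Fin 2) ℝ := fun v => quatMat v.1 v.2.1 v.2.2.1 v.2.2.2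
  have hinj : Function.Injective
      (fun k : quatGroup => ((k : SpecialLinearGroup (Fin 2) ℝ) : Matrix (Fin 2) (Fin 2) ℝ)) :=
    fun a b hab => Subtype.ext (Subtype.ext hab)
  refine ((hF.image f).preimage hinj.injOn).subset ?_
  intro k hk
  obtain ⟨x, y, z, w, hx, hmat⟩ := k.2
  refine ⟨(x, y, z, w), ?_, hmat.symm⟩
  have h00 := hk 0 0
  have h01 := hk 0 1
  have h10 := hk 1 0
  have h11 := hk 1 1
  rw [hmat] at h00 h01 h10 h11
  simp only [quatMat, of_apply, cons_val', cons_val_zero, cons_val_one, cons_val_fin_one] at h00 h01 h10 h11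
  have hs1 : (1 : ℝ) ≤ √3 := by
    rw [show (1 : ℝ) = √1 by simp]
    exact Real.sqrt_le_sqrt (by norm_num)
  have hR : 0 ≤ R := (abs_nonneg _).trans h00
  rw [abs_le] at h00 h01 h10 h11
  have hxb : |(x : ℝ)| ≤ N := by
    rw [abs_le]; constructor <;> linarith [h00.1, h00.2, h11.1, h11.2]
  have hyb : |(y : ℝ)| ≤ N := by
    have : |(y : ℝ) * √3| ≤ R := by
      rw [abs_le]; constructor <;> linarith [h00.1, h00.2, h11.1, h11.2]
    rw [abs_mul, abs_of_pos (by linarith : (0 : ℝ) < √3)] at this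
    have h0 := abs_nonneg (y : ℝ)
    nlinarith
  have hzb : |(z : ℝ)| ≤ N := by
    rw [abs_le]; constructor <;> linarith [h01.1, h01.2, h10.1, h10.2]
  have hwb : |(w : ℝ)| ≤ N := by
    have : |(w : ℝ) * √3| ≤ R := by
      rw [abs_le]; constructor <;> linarith [h01.1, h01.2, h10.1, h10.2]
    rw [abs_mul, abs_of_pos (by linarith : (0 : ℝ) < √3)] at this
    have h0 := abs_nonneg (w : ℝ)
    nlinarith
  have conv : ∀ t : ℤ, |(t : ℝ)| ≤ N → t ∈ Set.Icc (-N : ℤ) N := by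
    intro t ht
    rw [abs_le] at ht
    exact ⟨by exact_mod_cast ht.1, by exact_mod_cast ht.2⟩
  exact ⟨conv x hxb, conv y hyb, conv z hzb, conv w hwb⟩

end Pool.Agent.Helper6
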